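import Pool.Agent.Helper94.DN.St

/-!
# Project DN, module RAN: smooth numbers, Rankin type bound
-/

set_option autoImplicit false

namespace Pool.Agent.Helper7.DN

open Pool.Agent.Helper94.DN ArithmeticFunction

/-- the completely multiplicative weight -/
private noncomputable def fR : ℕ →* ℝ where
  toFun n := (3 / 2 : ℝ) ^ (cardFactors n) / n
  map_one' := by simp
  map_mul' m n := by
    rcases eq_or_ne m 0 with hm | hm
    · simp [hm]
    rcases eq_or_ne n 0 with hn | hn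
    · simp [hn]
    rw [cardFactors_mul hm hn, pow_add]
    push_cast
    have h1 : (m : ℝ) ≠ 0 := by exact_mod_cast hm
    have h2 : (n : ℝ) ≠ 0 := by exact_mod_cast hn
    field_simp

private theorem fR_apply (n : ℕ) : fR n = (3 / 2 : ℝ) ^ (cardFactors n) / n := rfl

private theorem fR_prime {p : ℕ} (hp : p.Prime) : fR p = 3 / (2 * p) := by
  rw [fR_apply, cardFactors_apply_prime hp, pow_one]
  have : (p : ℝ) ≠ 0 := by exact_mod_cast hp.ne_zero
  field_simp

private theorem fR_nonneg (n : ℕ) : 0 ≤ fR n := by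
  rw [fR_apply]
  positivity

private theorem list_le (q : ℕ) : ∀ l : List ℕ, (∀ x ∈ l, x ≤ q) → l.prod ≤ q ^ l.length := by
  intro l
  induction l with
  | nil => intro _; simp
  | cons a l ih =>
    intro h
    rw [List.prod_cons, List.length_cons, pow_succ, mul_comm]
    exact Nat.mul_le_mul (ih fun x hx => h x (List.mem_cons_of_mem _ hx)) (h a (by simp))

private theorem point {q L A : ℕ} (hq : 2 ≤ q) (hA : A ≠ 0)
    (hs : ∀ l : ℕ, l.Prime → l ∣ A → l < q) (hL : q ^ L ≤ A) :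
    (1 : ℝ) / A ≤ (2 / 3) ^ L * fR A := by
  have h1 : A ≤ q ^ (cardFactors A) := by
    have := list_le q A.primeFactorsList fun x hx =>
      (hs x (Nat.prime_of_mem_primeFactorsList hx) (Nat.dvd_of_mem_primeFactorsList hx)).le
    rw [Nat.prod_primeFactorsList hA] at this
    exact this
  have h2 : L ≤ cardFactors A := by
    by_contra h
    push Not at h
    exact absurd (hL.trans h1) (not_le.mpr (Nat.pow_lt_pow_right (by omega) h))
  have h3 : (1 : ℝ) ≤ (2 / 3) ^ L * (3 / 2) ^ (cardFactors A) := by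
    obtain ⟨k, hk⟩ := Nat.exists_eq_add_of_le h2
    rw [hk, pow_add, ← mul_assoc, ← mul_pow]
    norm_num
    exact one_le_pow₀ (by norm_num)
  have h0 : (0 : ℝ) < A := by exact_mod_cast Nat.pos_of_ne_zero hA
  rw [fR_apply, ← mul_div_assoc]
  exact div_le_div_of_nonneg_right h3 h0.le

private theorem prod_tel (n : ℕ) : ∏ k ∈ Finset.Ico 2 (n + 2), ((1 - 1 / (k : ℝ)) ^ 2)⁻¹ = ((n : ℝ) + 1) ^ 2 := by
  induction n with
  | zero => simp
  | succ n ih =>
    rw [Finset.prod_Ico_succ_top (by omega), ih]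
    push_cast
    have h1 : (n : ℝ) + 2 ≠ 0 := by positivity
    have h2 : (n : ℝ) + 1 ≠ 0 := by positivity
    have e : 1 - 1 / ((n : ℝ) + 2) = ((n : ℝ) + 1) / (n + 2) := by
      field_simp
      ring
    rw [e]
    field_simp
    ring

private theorem prod_le {q : ℕ} (hq : 2 ≤ q) : ∏ p ∈ q.primesBelow, (1 - fR p)⁻¹ ≤ (q : ℝ) ^ 2 := by
  have h1 : ∀ k : ℕ, 2 ≤ k → (0 : ℝ) < (1 - 1 / (k : ℝ)) ^ 2 ∧ (1 - 1 / (k : ℝ)) ^ 2 ≤ 1 := by
    intro k hk
    have hk' : (2 : ℝ) ≤ k := by exact_mod_cast hk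
    have ha : (0 : ℝ) < 1 / k := by positivity
    have hb : 1 / (k : ℝ) ≤ 1 / 2 := one_div_le_one_div_of_le (by norm_num) hk'
    constructor
    · have : (0 : ℝ) < 1 - 1 / k := by linarith
      positivity
    · nlinarith
  have h2 : ∏ p ∈ q.primesBelow, (1 - fR p)⁻¹ ≤ ∏ p ∈ q.primesBelow, ((1 - 1 / (p : ℝ)) ^ 2)⁻¹ := by
    refine Finset.prod_le_prod (fun p hp => ?_) (fun p hp => ?_)
    · have hp' := Nat.prime_of_mem_primesBelow hp
      have h2p : (2 : ℝ) ≤ p := by exact_mod_cast hp'.two_le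
      rw [fR_prime hp', inv_nonneg, sub_nonneg, div_le_one (by positivity)]
      linarith
    · have hp' := Nat.prime_of_mem_primesBelow hp
      have h2p : (2 : ℝ) ≤ p := by exact_mod_cast hp'.two_le
      have h0 : (0 : ℝ) < p := by linarith
      refine inv_anti₀ (h1 p hp'.two_le).1 ?_
      rw [fR_prime hp']
      have e : 1 - 3 / (2 * (p : ℝ)) - (1 - 1 / (p : ℝ)) ^ 2 = (p - 2) / (2 * p ^ 2) := by
        field_simp
        ring
      have : 0 ≤ ((p : ℝ) - 2) / (2 * p ^ 2) := div_nonneg (by linarith) (by positivity)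
      linarith
  have h3 : ∏ p ∈ q.primesBelow, ((1 - 1 / (p : ℝ)) ^ 2)⁻¹
      ≤ ∏ k ∈ Finset.Ico 2 q, ((1 - 1 / (k : ℝ)) ^ 2)⁻¹ := by
    refine Finset.prod_le_prod_of_subset_of_one_le ?_ ?_ ?_
    · intro p hp
      rw [Finset.mem_Ico]
      exact ⟨(Nat.prime_of_mem_primesBelow hp).two_le, Nat.lt_of_mem_primesBelow hp⟩
    · intro k hk
      exact inv_nonneg.mpr (h1 k (Nat.prime_of_mem_primesBelow hk).two_le).1.le
    · intro k hk _
      have := h1 k (Finset.mem_Ico.mp hk).1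
      exact (one_le_inv₀ this.1).mpr this.2
  obtain ⟨n, rfl⟩ : ∃ n, q = n + 2 := ⟨q - 2, by omega⟩
  rw [prod_tel] at h3
  refine (h2.trans h3).trans ?_
  push_cast
  have : (0 : ℝ) ≤ n := Nat.cast_nonneg n
  nlinarith

/-- MODULE RAN. -/
theorem hRAN : StRAN := by
  intro q L S hq hS
  have hf : ∀ {p : ℕ}, p.Prime → ‖fR p‖ < 1 := by
    intro p hp
    have h2p : (2 : ℝ) ≤ p := by exact_mod_cast hp.two_le
    rw [Real.norm_of_nonneg (fR_nonneg p), fR_prime hp, div_lt_one (by linarith)]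
    linarith
  obtain ⟨-, hsum⟩ := EulerProduct.summable_and_hasSum_smoothNumbers_prod_primesBelow_geometric hf q
  have hmem : ∀ A ∈ S, A ∈ q.smoothNumbers := by
    intro A hA
    rw [Nat.mem_smoothNumbers]
    exact ⟨(hS A hA).1, fun p hp => (hS A hA).2.1 p (Nat.prime_of_mem_primeFactorsList hp)
      (Nat.dvd_of_mem_primeFactorsList hp)⟩
  have h1 : ∑ A ∈ S, fR A ≤ ∏ p ∈ q.primesBelow, (1 - fR p)⁻¹ := by
    have e : ∑ A ∈ S, fR A = ∑ A ∈ S.subtype (· ∈ q.smoothNumbers), fR A := by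
      rw [Finset.sum_subtype_of_mem (fun A => fR A) hmem]
    rw [e]
    exact sum_le_hasSum _ (fun _ _ => fR_nonneg _) hsum
  calc ∑ A ∈ S, (1 : ℝ) / A ≤ ∑ A ∈ S, (2 / 3) ^ L * fR A :=
        Finset.sum_le_sum fun A hA => point hq (hS A hA).1 (hS A hA).2.1 (hS A hA).2.2
    _ = (2 / 3) ^ L * ∑ A ∈ S, fR A := by rw [Finset.mul_sum]
    _ ≤ (2 / 3) ^ L * (q : ℝ) ^ 2 := mul_le_mul_of_nonneg_left (h1.trans (prod_le hq)) (by positivity)
    _ = (q : ℝ) ^ 2 * (2 / 3) ^ L := mul_comm _ _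

end Pool.Agent.Helper7.DN
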